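import Pool.Agent.Lib.MP_6bc78b_nt.GP.Iface
import Pool.Agent.Lib.MP_6bc78b_nt.MS.P1.K.GammaLine

/-! GAMC: the function `om0` on the critical line and crude bounds in a strip. -/

set_option autoImplicit false

open Complex Filter Topology MeasureTheory Set

namespace Pool.Agent.Lib.MP_6bc78b_nt.GP.H37

open Pool.Agent.Lib.MP_6bc78b_nt.MS Pool.Agent.Lib.MP_6bc78b_nt.MS.P1
open Pool.Agent.Lib.MP_6bc78b_nt.GP

/-- The norm of `om0`. -/
lemma norm_om0 (δ : ℝ) (s : ℂ) : ‖om0 δ s‖ =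
    ‖Complex.Gamma s‖ * (2 * Real.pi) ^ (-s.re) * Real.exp ((Real.pi / 2 - δ) * s.im) := by
  unfold om0
  rw [norm_mul, norm_mul, Complex.norm_exp]
  congr 1
  · congr 1
    have h1 : (2 * Real.pi : ℂ) = ((2 * Real.pi : ℝ) : ℂ) := by push_cast; ring
    rw [h1, Complex.norm_cpow_eq_rpow_re_of_pos (by positivity)]
    simp
  · congr 1
    simp [Complex.mul_re, Complex.mul_im]
    ring

lemma gamma_half_sq (γ : ℝ) :
    ‖Complex.Gamma (1 / 2 + γ * I)‖ ^ 2 = Real.pi / Real.cosh (Real.pi * γ) := by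
  have h1 := Complex.Gamma_mul_Gamma_one_sub (1 / 2 + γ * I)
  have h2 : (1 : ℂ) - (1 / 2 + γ * I) = (starRingEnd ℂ) (1 / 2 + γ * I) := by
    simp only [map_add, map_mul, Complex.conj_I, Complex.conj_ofReal, map_div₀, map_one,
      map_ofNat]
    ring
  rw [h2, Complex.Gamma_conj, Complex.mul_conj] at h1
  have h3 : Complex.sin (Real.pi * (1 / 2 + γ * I)) = ((Real.cosh (Real.pi * γ) : ℝ) : ℂ) := by
    have h4 : (Real.pi * (1 / 2 + γ * I) : ℂ) = (Real.pi * γ : ℂ) * I + Real.pi / 2 := by ring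
    rw [h4, Complex.sin_add_pi_div_two, Complex.cos_mul_I, Complex.ofReal_cosh]
    push_cast
    ring
  rw [h3, ← Complex.ofReal_div] at h1
  have h5 := Complex.ofReal_injective h1
  rw [Complex.normSq_eq_norm_sq] at h5
  exact h5

/-- The value on the critical line. -/
lemma crit (δ γ : ℝ) (hδ : 0 ≤ δ) (hγ : 0 ≤ γ) : ‖om0 δ (1 / 2 + γ * I)‖ ≤ 1 := by
  rw [norm_om0]
  have hre : (1 / 2 + γ * I : ℂ).re = 1 / 2 := by simp
  have him : (1 / 2 + γ * I : ℂ).im = γ := by simp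
  rw [hre, him]
  set G := ‖Complex.Gamma (1 / 2 + γ * I)‖ with hG
  have hG2 : G ^ 2 = Real.pi / Real.cosh (Real.pi * γ) := gamma_half_sq γ
  have hG0 : 0 ≤ G := norm_nonneg _
  have hp : (0 : ℝ) < 2 * Real.pi := by positivity
  set P := (2 * Real.pi) ^ (-(1 / 2) : ℝ) with hP
  have hP2 : P ^ 2 = 1 / (2 * Real.pi) := by
    rw [hP, ← Real.rpow_natCast, ← Real.rpow_mul hp.le]
    norm_num
    rw [Real.rpow_neg_one]
    ring
  set E := Real.exp ((Real.pi / 2 - δ) * γ) with hE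
  have hE2 : E ^ 2 ≤ Real.exp (Real.pi * γ) := by
    rw [hE, ← Real.exp_nat_mul]
    apply Real.exp_le_exp.2
    push_cast
    nlinarith [mul_nonneg hδ hγ]
  have hcosh : Real.exp (Real.pi * γ) / 2 ≤ Real.cosh (Real.pi * γ) := by
    rw [Real.cosh_eq]
    have := Real.exp_pos (-(Real.pi * γ))
    linarith
  have hcp : 0 < Real.cosh (Real.pi * γ) := Real.cosh_pos _
  have hsq : (G * P * E) ^ 2 ≤ 1 := by
    have h1 : (G * P * E) ^ 2 = G ^ 2 * P ^ 2 * E ^ 2 := by ring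
    rw [h1, hG2, hP2]
    have h2 : Real.pi / Real.cosh (Real.pi * γ) * (1 / (2 * Real.pi)) * E ^ 2 =
        E ^ 2 / (2 * Real.cosh (Real.pi * γ)) := by
      field_simp
    rw [h2, div_le_one (by positivity)]
    linarith
  have hpos : 0 ≤ G * P * E := by positivity
  nlinarith

/-- Rotated Gamma integral. -/
lemma gamma_rot (s : ℂ) (φ : ℝ) (hs : 0 < s.re) (h1 : -(Real.pi / 2) < φ) (h2 : φ < Real.pi / 2) :
    ‖Complex.Gamma s‖ * Real.exp (φ * s.im) ≤
      Real.Gamma s.re * Real.exp (-(s.re * Real.log (Real.cos φ))) := by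
  have hc : 0 < Real.cos φ := Real.cos_pos_of_mem_Ioo ⟨h1, h2⟩
  set a : ℂ := Complex.exp (φ * I) with ha
  have hare : a.re = Real.cos φ := by rw [ha, Complex.exp_ofReal_mul_I_re]
  have hpi := Real.pi_pos
  have hlog : Complex.log a = φ * I := by
    rw [ha, Complex.log_exp]
    · simp; linarith
    · simp; linarith
  have h3 := MS.K.gammaLine (s := s) (a := a) hs (by rw [hare]; exact hc)
  have h4 : ‖∫ v : ℝ, cexp (s * v - a * Real.exp v)‖ = Real.exp (φ * s.im) * ‖Complex.Gamma s‖ := by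
    rw [h3, norm_mul, Complex.norm_exp, hlog]
    congr 2
    simp [Complex.mul_re, Complex.mul_im]
    ring
  have h5 : ‖∫ v : ℝ, cexp (s * v - a * Real.exp v)‖ ≤
      ∫ v : ℝ, Real.exp (s.re * v - Real.cos φ * Real.exp v) := by
    refine (norm_integral_le_integral_norm _).trans (le_of_eq ?_)
    congr 1
    funext v
    rw [MS.K.norm_cexp_line, hare]
  have h6 : ∫ v : ℝ, Real.exp (s.re * v - Real.cos φ * Real.exp v) =
      Real.Gamma s.re * Real.exp (-(s.re * Real.log (Real.cos φ))) := by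
    have h7 := MS.K.gammaLine_real (s := (s.re : ℂ)) (ρ := Real.cos φ) (by simpa using hs) hc
    have h8 : (fun v : ℝ => cexp ((s.re : ℂ) * v - (Real.cos φ : ℝ) * (Real.exp v : ℝ))) =
        fun v : ℝ => ((Real.exp (s.re * v - Real.cos φ * Real.exp v) : ℝ) : ℂ) := by
      funext v
      push_cast
      rfl
    rw [h8, integral_complex_ofReal, ← Complex.ofReal_log hc.le, Complex.Gamma_ofReal] at h7
    have h9 : cexp (-((s.re : ℂ) * (Real.log (Real.cos φ) : ℝ))) * (Real.Gamma s.re : ℂ) =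
        ((Real.Gamma s.re * Real.exp (-(s.re * Real.log (Real.cos φ))) : ℝ) : ℂ) := by
      push_cast
      ring
    rw [h9] at h7
    exact Complex.ofReal_injective h7
  rw [h4, h6] at h5
  linarith

/-- Gamma in the strip `1/2 ≤ Re s ≤ 3/2`. -/
lemma gamma_strip : ∃ C : ℝ, 0 < C ∧ ∀ s : ℂ, 1 / 2 ≤ s.re → s.re ≤ 3 / 2 →
    ‖Complex.Gamma s‖ ≤ C * (1 + |s.im|) ^ 2 * Real.exp (-(Real.pi / 2 * |s.im|)) := by
  obtain ⟨M, hM⟩ : ∃ M : ℝ, ∀ x ∈ Icc (1 / 2 : ℝ) (3 / 2), Real.Gamma x ≤ M := by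
    have h1 : ContinuousOn Real.Gamma (Icc (1 / 2 : ℝ) (3 / 2)) := by
      intro x hx
      refine (Real.differentiableAt_Gamma fun m => ?_).continuousAt.continuousWithinAt
      have h2 : (0 : ℝ) < x := by linarith [hx.1]
      have h3 : (0 : ℝ) ≤ m := Nat.cast_nonneg m
      intro h
      linarith
    obtain ⟨M, hM⟩ := (isCompact_Icc.image_of_continuousOn h1).bddAbove
    exact ⟨M, fun x hx => hM (mem_image_of_mem _ hx)⟩
  have hMpos : 0 < M := lt_of_lt_of_le (Real.Gamma_pos_of_pos (by norm_num : (0 : ℝ) < 1))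
    (hM 1 ⟨by norm_num, by norm_num⟩)
  refine ⟨M * 4 * Real.exp 1, by positivity, fun s hs1 hs2 => ?_⟩
  set y := s.im with hy
  set η := 1 / (1 + |y|) with hη
  have hy0 : 0 ≤ |y| := abs_nonneg y
  have hη0 : 0 < η := by positivity
  have hη1 : η ≤ 1 := by rw [hη, div_le_one (by positivity)]; linarith
  have hpi3 := Real.pi_gt_three
  have hpi4 := Real.pi_le_four
  -- the angle
  obtain ⟨φ, hφ1, hφ2, hφc, hφy⟩ : ∃ φ : ℝ, -(Real.pi / 2) < φ ∧ φ < Real.pi / 2 ∧
      Real.cos φ = Real.sin η ∧ φ * y = (Real.pi / 2 - η) * |y| := by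
    rcases le_total 0 y with h | h
    · refine ⟨Real.pi / 2 - η, by linarith, by linarith, Real.cos_pi_div_two_sub η, ?_⟩
      rw [abs_of_nonneg h]
    · refine ⟨-(Real.pi / 2 - η), by linarith, by linarith, ?_, ?_⟩
      · rw [Real.cos_neg, Real.cos_pi_div_two_sub]
      · rw [abs_of_nonpos h]; ring
  have h1 := gamma_rot s φ (by linarith) hφ1 hφ2
  rw [hφc] at h1
  have hsin : η / 2 ≤ Real.sin η := by
    have h2 := Real.mul_le_sin hη0.le (by linarith : η ≤ Real.pi / 2)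
    refine le_trans ?_ h2
    have h3 : (1 : ℝ) / 2 ≤ 2 / Real.pi := by
      rw [div_le_div_iff₀ (by norm_num) Real.pi_pos]; linarith
    nlinarith
  have hsin0 : 0 < Real.sin η := lt_of_lt_of_le (by positivity) hsin
  have hX : (1 : ℝ) ≤ 2 * (1 + |y|) := by linarith
  have h2 : Real.exp (-(s.re * Real.log (Real.sin η))) ≤ 4 * (1 + |y|) ^ 2 := by
    have h3 : -(s.re * Real.log (Real.sin η)) ≤ 2 * Real.log (2 * (1 + |y|)) := by
      have h4 : -Real.log (Real.sin η) ≤ Real.log (2 * (1 + |y|)) := by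
        rw [← Real.log_inv]
        apply Real.log_le_log (by positivity)
        rw [inv_le_comm₀ hsin0 (by positivity)]
        refine le_trans (le_of_eq ?_) hsin
        rw [hη]
        field_simp
      have h5 : 0 ≤ Real.log (2 * (1 + |y|)) := Real.log_nonneg hX
      have h6 : 0 ≤ s.re := by linarith
      calc -(s.re * Real.log (Real.sin η)) = s.re * (-Real.log (Real.sin η)) := by ring
        _ ≤ s.re * Real.log (2 * (1 + |y|)) := mul_le_mul_of_nonneg_left h4 h6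
        _ ≤ 2 * Real.log (2 * (1 + |y|)) := mul_le_mul_of_nonneg_right (by linarith) h5
    calc Real.exp (-(s.re * Real.log (Real.sin η)))
        ≤ Real.exp (2 * Real.log (2 * (1 + |y|))) := Real.exp_le_exp.2 h3
      _ = (2 * (1 + |y|)) ^ 2 := by
          rw [two_mul, Real.exp_add, Real.exp_log (by positivity)]; ring
      _ = 4 * (1 + |y|) ^ 2 := by ring
  have h3 : Real.Gamma s.re ≤ M := hM _ ⟨hs1, hs2⟩
  have h4 : ‖Complex.Gamma s‖ * Real.exp (φ * y) ≤ M * (4 * (1 + |y|) ^ 2) :=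
    h1.trans (mul_le_mul h3 h2 (Real.exp_pos _).le hMpos.le)
  have h5 : Real.exp (Real.pi / 2 * |y| - 1) ≤ Real.exp (φ * y) := by
    apply Real.exp_le_exp.2
    rw [hφy]
    have h6 : η * |y| ≤ 1 := by
      rw [hη, one_div, inv_mul_le_iff₀ (by positivity)]
      linarith
    linarith
  have h6 : ‖Complex.Gamma s‖ * Real.exp (Real.pi / 2 * |y| - 1) ≤ M * (4 * (1 + |y|) ^ 2) :=
    (mul_le_mul_of_nonneg_left h5 (norm_nonneg _)).trans h4
  have h7 : Real.exp (Real.pi / 2 * |y| - 1) * (Real.exp 1 * Real.exp (-(Real.pi / 2 * |y|))) = 1 := by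
    rw [← Real.exp_add, ← Real.exp_add, ← Real.exp_zero]
    congr 1
    ring
  calc ‖Complex.Gamma s‖ = ‖Complex.Gamma s‖ * (Real.exp (Real.pi / 2 * |y| - 1) *
        (Real.exp 1 * Real.exp (-(Real.pi / 2 * |y|)))) := by rw [h7, mul_one]
    _ = (‖Complex.Gamma s‖ * Real.exp (Real.pi / 2 * |y| - 1)) *
        (Real.exp 1 * Real.exp (-(Real.pi / 2 * |y|))) := by ring
    _ ≤ (M * (4 * (1 + |y|) ^ 2)) * (Real.exp 1 * Real.exp (-(Real.pi / 2 * |y|))) :=
        mul_le_mul_of_nonneg_right h6 (by positivity)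
    _ = M * 4 * Real.exp 1 * (1 + |y|) ^ 2 * Real.exp (-(Real.pi / 2 * |y|)) := by ring

/-- Gamma in the strip `-1/2 ≤ Re s ≤ 3/2`, away from the real axis. -/
lemma gamma_strip' : ∃ C : ℝ, 0 < C ∧ ∀ s : ℂ, -(1 / 2) ≤ s.re → s.re ≤ 3 / 2 → 1 ≤ |s.im| →
    ‖Complex.Gamma s‖ ≤ C * (1 + |s.im|) ^ 2 * Real.exp (-(Real.pi / 2 * |s.im|)) := by
  obtain ⟨C, hC, h⟩ := gamma_strip
  refine ⟨C, hC, fun s hs1 hs2 hs3 => ?_⟩
  rcases le_total (1 / 2) s.re with h1 | h1
  · exact h s h1 hs2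
  · have hs0 : s ≠ 0 := by
      rintro rfl
      simp at hs3
      linarith
    have h2 := Complex.Gamma_add_one s hs0
    have h3 := h (s + 1) (by rw [Complex.add_re, Complex.one_re]; linarith)
      (by rw [Complex.add_re, Complex.one_re]; linarith)
    rw [h2, norm_mul, Complex.add_im, Complex.one_im, add_zero] at h3
    have h4 : 1 ≤ ‖s‖ := hs3.trans (Complex.abs_im_le_norm s)
    refine le_trans ?_ h3
    nlinarith [norm_nonneg (Complex.Gamma s)]

theorem gamc : GAMCStatement := by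
  refine ⟨fun δ γ hδ hγ => crit δ γ hδ hγ, ?_⟩
  obtain ⟨C, hC, h⟩ := gamma_strip'
  refine ⟨C * 3, by positivity, fun δ s hδ0 hδ1 hs1 hs2 hs3 => ?_⟩
  rw [norm_om0]
  have hpi3 := Real.pi_gt_three
  have hpi4 := Real.pi_le_four
  have h1 := h s hs1 hs2 hs3
  have h2 : Real.exp ((Real.pi / 2 - δ) * s.im) ≤ Real.exp (Real.pi / 2 * |s.im|) := by
    apply Real.exp_le_exp.2
    have h3 : (Real.pi / 2 - δ) * s.im ≤ |Real.pi / 2 - δ| * |s.im| := by
      rw [← abs_mul]; exact le_abs_self _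
    refine h3.trans (mul_le_mul_of_nonneg_right ?_ (abs_nonneg _))
    rw [abs_le]
    constructor <;> linarith
  have h3 : (2 * Real.pi) ^ (-s.re) ≤ 3 := by
    calc (2 * Real.pi) ^ (-s.re) ≤ (2 * Real.pi) ^ (1 / 2 : ℝ) :=
          Real.rpow_le_rpow_of_exponent_le (by linarith) (by linarith)
      _ = Real.sqrt (2 * Real.pi) := by rw [Real.sqrt_eq_rpow]
      _ ≤ 3 := by
          rw [Real.sqrt_le_left (by norm_num)]
          linarith
  have h4 : Real.exp (-(Real.pi / 2 * |s.im|)) * Real.exp (Real.pi / 2 * |s.im|) = 1 := by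
    rw [← Real.exp_add]; simp
  have hr0 : 0 ≤ (2 * Real.pi) ^ (-s.re) := by positivity
  calc ‖Complex.Gamma s‖ * (2 * Real.pi) ^ (-s.re) * Real.exp ((Real.pi / 2 - δ) * s.im)
      ≤ (C * (1 + |s.im|) ^ 2 * Real.exp (-(Real.pi / 2 * |s.im|))) * 3 *
        Real.exp (Real.pi / 2 * |s.im|) := by
        apply mul_le_mul _ h2 (Real.exp_pos _).le (by positivity)
        exact mul_le_mul h1 h3 hr0 (by positivity)
    _ = C * 3 * (1 + |s.im|) ^ 2 * (Real.exp (-(Real.pi / 2 * |s.im|)) *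
        Real.exp (Real.pi / 2 * |s.im|)) := by ring
    _ = C * 3 * (1 + |s.im|) ^ 2 := by rw [h4, mul_one]

end Pool.Agent.Lib.MP_6bc78b_nt.GP.H37
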