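import Pool.Agent.Lib.MP_6bc78b_nt.GP.H62.Defs9
import Pool.Agent.Lib.MP_6bc78b_nt.GP.H69.RGT

/-! Project GP9, row RGTK: the right line is `S_E`, for the window `exp (1 - cosh x)`. -/

set_option autoImplicit false

open Complex Filter Topology MeasureTheory ArithmeticFunction Set
open scoped ENNReal

namespace Pool.Agent.Lib.MP_6bc78b_nt.GP.H37K

open Pool.Agent.Lib.MP_6bc78b_nt.MS Pool.Agent.Lib.MP_6bc78b_nt.MS.P1
open Pool.Agent.Lib.MP_6bc78b_nt.GP Pool.Agent.Lib.MP_6bc78b_nt.GP.G9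
open Pool.Agent.Lib.MP_6bc78b_nt.GP.H69 (zn zn_re zn_cpow exp_zp)

theorem GK_norm (H t y : ℝ) (hH : 4 ≤ H) :
    ‖GK H t (((3 / 2 : ℝ) : ℂ) + y * I)‖ ≤ Real.exp 1 := by
  have e : (((3 / 2 : ℝ) : ℂ) + y * I).re = 3 / 2 := by simp
  refine (norm_GK_le H t _ (by linarith) (by rw [e]; norm_num) (by rw [e])).trans ?_
  apply Real.exp_le_exp.2
  have := Real.cosh_pos (((((3 / 2 : ℝ) : ℂ) + y * I).im - t) / H)
  linarith

theorem GK_line_cont (H t : ℝ) : Continuous (fun y : ℝ => GK H t (((3 / 2 : ℝ) : ℂ) + y * I)) := by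
  unfold GK
  fun_prop

theorem exp_abs_int (b : ℝ) (hb : 0 < b) : Integrable (fun u : ℝ => Real.exp (-(b * |u|))) := by
  have h1 : IntegrableOn (fun u : ℝ => Real.exp (-(b * |u|))) (Ioi 0) := by
    refine (exp_neg_integrableOn_Ioi 0 hb).congr_fun (fun u hu => ?_) measurableSet_Ioi
    show Real.exp (-b * u) = Real.exp (-(b * |u|))
    rw [abs_of_pos hu]
    congr 1
    ring
  have h3 : IntegrableOn (fun u : ℝ => Real.exp (-(b * |u|))) (Iio 0) := by
    have h4 : IntegrableOn (fun u : ℝ => Real.exp (-(b * |u|))) (Ioi (-0)) := by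
      rw [neg_zero]
      exact h1
    have := h4.comp_neg_Iio
    simpa using this
  have h2 : IntegrableOn (fun u : ℝ => Real.exp (-(b * |u|))) (Iic 0) := by
    rw [integrableOn_Iic_iff_integrableOn_Iio]
    exact h3
  have := h2.union h1
  rwa [Iic_union_Ioi, integrableOn_univ] at this

theorem w_int (hk : KERStatement) (H : ℝ) (hH : 4 ≤ H) : Integrable (fun u : ℝ =>
    ((H * kk (H * u) * Real.exp (-u) : ℝ) : ℂ)) := by
  obtain ⟨hc, -, -, ⟨C, hC, hle⟩, -, -⟩ := hk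
  suffices h : Integrable (fun u : ℝ => H * kk (H * u) * Real.exp (-u)) from h.ofReal
  refine Integrable.mono' ((exp_abs_int 1 one_pos).const_mul (H * C)) ?_
    (ae_of_all _ fun u => ?_)
  · have h1 : Continuous (fun u : ℝ => H * kk (H * u) * Real.exp (-u)) := by fun_prop
    exact h1.aestronglyMeasurable
  · rw [Real.norm_eq_abs, abs_mul, abs_mul, Real.abs_exp, abs_of_pos (by linarith : (0:ℝ) < H)]
    have h1 : |kk (H * u)| ≤ C * Real.exp (-(H * |u|)) := by
      have := hle (H * u)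
      rwa [abs_mul, abs_of_pos (by linarith : (0:ℝ) < H)] at this
    calc H * |kk (H * u)| * Real.exp (-u)
        ≤ H * (C * Real.exp (-(H * |u|))) * Real.exp (-u) := by gcongr
      _ = H * C * Real.exp (-(H * |u|) + -u) := by rw [Real.exp_add]; ring
      _ ≤ H * C * Real.exp (-(1 * |u|)) := by
          apply mul_le_mul_of_nonneg_left _ (by positivity)
          apply Real.exp_le_exp.2
          have h2 := neg_abs_le u
          nlinarith [abs_nonneg u]

theorem rgtk (hker : KERStatement) (h1 : GAMIStatement) (h2 : DX2Statement) : RGTKStatement := by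
  intro A B δ H t hδ hδ2 hH
  have hH0 : 0 < H := by linarith
  set a : ℕ → ℂ := fun n => ((bn A B n : ℝ) : ℂ) with ha
  have hsum : Summable (fun n : ℕ => ‖a n‖ * (n : ℝ) ^ (-(3 / 2 : ℝ))) := by
    refine ((h2 A B).2.1 (3 / 2) (by norm_num)).congr fun n => ?_
    show |bn A B n| * (n : ℝ) ^ (-(3 / 2 : ℝ)) = ‖((bn A B n : ℝ) : ℂ)‖ * (n : ℝ) ^ (-(3 / 2 : ℝ))
    rw [Complex.norm_real, Real.norm_eq_abs]
  have hom : Integrable (fun y : ℝ => om0 δ (((3 / 2 : ℝ) : ℂ) + y * I)) := by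
    refine ((h1 (3 / 2) (zn 1 0 δ) (by norm_num) (zn_re 1 one_ne_zero 0 δ hδ hδ2)).1).congr
      (ae_of_all _ fun y => ?_)
    show Complex.Gamma (((3 / 2 : ℝ) : ℂ) + y * I) * zn 1 0 δ ^ (-(((3 / 2 : ℝ) : ℂ) + y * I)) = _
    rw [zn_cpow 1 one_ne_zero 0 δ hδ hδ2]
    simp
  -- the factor in `u`
  have hexp : ∀ u : ℝ, Integrable (fun y : ℝ => om0 δ (((3 / 2 : ℝ) : ℂ) + y * I) *
      Complex.exp (-(u * (((3 / 2 : ℝ) : ℂ) + y * I)))) := by
    intro u
    have hc : Continuous (fun y : ℝ => Complex.exp (-(u * (((3 / 2 : ℝ) : ℂ) + y * I)))) := by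
      fun_prop
    have hb : ∀ y : ℝ, ‖Complex.exp (-(u * (((3 / 2 : ℝ) : ℂ) + y * I)))‖ ≤
        Real.exp (-(u * (3 / 2))) := by
      intro y
      rw [Complex.norm_exp]
      apply le_of_eq
      congr 1
      simp
    refine (hom.bdd_mul hc.aestronglyMeasurable (ae_of_all _ hb)).congr (ae_of_all _ fun y => ?_)
    show _ * _ = _ * _
    ring
  have hg : Integrable (fun y : ℝ => om0 δ (((3 / 2 : ℝ) : ℂ) + y * I) *
      GK H t (((3 / 2 : ℝ) : ℂ) + y * I)) := by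
    refine (hom.bdd_mul (GK_line_cont H t).aestronglyMeasurable
      (ae_of_all _ fun y => GK_norm H t y hH)).congr (ae_of_all _ fun y => ?_)
    show _ * _ = _ * _
    ring
  refine ⟨?_, ?_⟩
  · refine (SWAP.swap (3 / 2) a (fun s => om0 δ s * GK H t s) hsum hg).1.congr
      (ae_of_all _ fun y => ?_)
    show _ * (_ * _) = _ * _ * _
    ring
  -- Fubini
  have hF : Integrable (fun y : ℝ => LSeries a (((3 / 2 : ℝ) : ℂ) + y * I) *
      om0 δ (((3 / 2 : ℝ) : ℂ) + y * I)) := (SWAP.swap (3 / 2) a (fun s => om0 δ s) hsum hom).1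
  set w : ℝ → ℝ := fun u => H * kk (H * u) with hw
  set K : ℝ → ℝ → ℂ := fun y u => (LSeries a (((3 / 2 : ℝ) : ℂ) + y * I) *
      om0 δ (((3 / 2 : ℝ) : ℂ) + y * I)) * ((w u : ℂ) *
        Complex.exp (-(u * ((((3 / 2 : ℝ) : ℂ) + y * I) - 1 / 2 - t * I)))) with hK
  have hKint : Integrable (Function.uncurry K) (volume.prod volume) := by
    have hb := hF.mul_prod (w_int hker H hH)
    have hc : Continuous (fun z : ℝ × ℝ => Complex.exp (-(((z.2 * (z.1 - t) : ℝ) : ℂ) * I))) := by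
      fun_prop
    have hn : ∀ z : ℝ × ℝ, ‖Complex.exp (-(((z.2 * (z.1 - t) : ℝ) : ℂ) * I))‖ ≤ 1 := by
      intro z
      rw [Complex.norm_exp]
      simp
    refine (hb.bdd_mul hc.aestronglyMeasurable (ae_of_all _ hn)).congr (ae_of_all _ fun z => ?_)
    show Complex.exp (-(((z.2 * (z.1 - t) : ℝ) : ℂ) * I)) *
      ((LSeries a (((3 / 2 : ℝ) : ℂ) + z.1 * I) * om0 δ (((3 / 2 : ℝ) : ℂ) + z.1 * I)) *
      ((H * kk (H * z.2) * Real.exp (-z.2) : ℝ) : ℂ))
      = (LSeries a (((3 / 2 : ℝ) : ℂ) + z.1 * I) *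
      om0 δ (((3 / 2 : ℝ) : ℂ) + z.1 * I)) * ((w z.2 : ℂ) *
        Complex.exp (-(z.2 * ((((3 / 2 : ℝ) : ℂ) + z.1 * I) - 1 / 2 - t * I))))
    have e : Complex.exp (-(z.2 * ((((3 / 2 : ℝ) : ℂ) + z.1 * I) - 1 / 2 - t * I))) =
        Complex.exp (-(((z.2 * (z.1 - t) : ℝ) : ℂ) * I)) * ((Real.exp (-z.2) : ℝ) : ℂ) := by
      rw [Complex.ofReal_exp, ← Complex.exp_add]
      congr 1
      push_cast
      ring
    rw [e, Complex.ofReal_mul (H * kk (H * z.2))]
    ring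
  have hL : ∀ y : ℝ, LSeries a (((3 / 2 : ℝ) : ℂ) + y * I) * om0 δ (((3 / 2 : ℝ) : ℂ) + y * I) *
      GK H t (((3 / 2 : ℝ) : ℂ) + y * I) = ∫ u : ℝ, K y u := by
    intro y
    show _ = ∫ u : ℝ, (LSeries a (((3 / 2 : ℝ) : ℂ) + y * I) *
      om0 δ (((3 / 2 : ℝ) : ℂ) + y * I)) * ((w u : ℂ) *
        Complex.exp (-(u * ((((3 / 2 : ℝ) : ℂ) + y * I) - 1 / 2 - t * I))))
    rw [integral_const_mul]
    congr 1
    exact (hker.2.2.2.2.2 H t (((3 / 2 : ℝ) : ℂ) + y * I) (by linarith) (by simp; norm_num)).symm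
  have hpi : (2 * Real.pi : ℂ) ≠ 0 := by
    exact_mod_cast (by positivity : (2 * Real.pi : ℝ) ≠ 0)
  have hR : ∀ u : ℝ, ∫ y : ℝ, K y u =
      (2 * Real.pi : ℂ) * (huK A B δ H u * Complex.exp (u * t * I)) := by
    intro u
    have e1 : (fun y : ℝ => K y u) = fun y : ℝ =>
        ((w u : ℂ) * Complex.exp (u / 2 + u * t * I)) *
          (LSeries a (((3 / 2 : ℝ) : ℂ) + y * I) * (om0 δ (((3 / 2 : ℝ) : ℂ) + y * I) *
            Complex.exp (-(u * (((3 / 2 : ℝ) : ℂ) + y * I))))) := by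
      funext y
      show (LSeries a (((3 / 2 : ℝ) : ℂ) + y * I) *
        om0 δ (((3 / 2 : ℝ) : ℂ) + y * I)) * ((w u : ℂ) *
        Complex.exp (-(u * ((((3 / 2 : ℝ) : ℂ) + y * I) - 1 / 2 - t * I)))) = _
      have e : Complex.exp (-(u * ((((3 / 2 : ℝ) : ℂ) + y * I) - 1 / 2 - t * I))) =
          Complex.exp (u / 2 + u * t * I) *
            Complex.exp (-(u * (((3 / 2 : ℝ) : ℂ) + y * I))) := by
        rw [← Complex.exp_add]
        congr 1
        ring
      rw [e]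
      ring
    have hs := (SWAP.swap (3 / 2) a (fun s => om0 δ s * Complex.exp (-(u * s))) hsum (hexp u)).2.2
    have hE : (∑' n : ℕ, if n = 0 then 0 else
        a n * VI (3 / 2) (fun s => (om0 δ s * Complex.exp (-(u * s))) * (n : ℂ) ^ (-s))) =
        EE A B (zp u δ) := by
      unfold EE
      refine tsum_congr fun n => ?_
      by_cases hn : n = 0
      · subst hn
        simp [bn]
      · rw [if_neg hn]
        congr 1
        rw [exp_zp]
        rw [(h1 (3 / 2) (zn n u δ) (by norm_num) (zn_re n hn u δ hδ hδ2)).2]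
        congr 1
        funext s
        exact (zn_cpow n hn u δ hδ hδ2 s).symm
    rw [e1, integral_const_mul]
    have hI : ∫ y : ℝ, (LSeries a (((3 / 2 : ℝ) : ℂ) + y * I) *
        (om0 δ (((3 / 2 : ℝ) : ℂ) + y * I) *
            Complex.exp (-(u * (((3 / 2 : ℝ) : ℂ) + y * I))))) =
        (2 * Real.pi : ℂ) * EE A B (zp u δ) := by
      rw [← hE, ← hs]
      unfold VI
      rw [← mul_assoc, mul_one_div_cancel hpi, one_mul]
    rw [hI]
    unfold huK
    have e2 : ((H * kk (H * u) * Real.exp (u / 2) : ℝ) : ℂ) =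
        (w u : ℂ) * Complex.exp (u / 2) := by
      rw [Complex.ofReal_mul]
      congr 1
      rw [Complex.ofReal_exp]
      congr 1
      push_cast
      ring
    rw [e2, Complex.exp_add]
    ring
  unfold VI SEK
  have hfin : (∫ y : ℝ, (fun s => LSeries a s * om0 δ s * GK H t s)
      (((3 / 2 : ℝ) : ℂ) + y * I)) =
      (2 * Real.pi : ℂ) * ∫ u : ℝ, huK A B δ H u * Complex.exp (u * t * I) := by
    rw [← integral_const_mul]
    calc (∫ y : ℝ, (fun s => LSeries a s * om0 δ s * GK H t s) (((3 / 2 : ℝ) : ℂ) + y * I))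
        = ∫ y : ℝ, ∫ u : ℝ, K y u := integral_congr_ae (ae_of_all _ hL)
      _ = ∫ u : ℝ, ∫ y : ℝ, K y u := integral_integral_swap hKint
      _ = _ := integral_congr_ae (ae_of_all _ hR)
  rw [hfin, ← mul_assoc, one_div_mul_cancel hpi, one_mul]

end Pool.Agent.Lib.MP_6bc78b_nt.GP.H37K
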