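import Pool.Agent.Lib.MP_6bc78b_nt.GP.H2.DefsZ
import Pool.Agent.Lib.MP_6bc78b_nt.GP.H69.RGT
import Pool.Agent.Lib.MP_6bc78b_nt.MS.P1.K.GammaLine

/-! Project GP11, energy route, row ZMEL: the Mellin transform of `1/(e^z - 1) - 1/z` on the
ray. -/

set_option autoImplicit false

open Complex Filter Topology MeasureTheory Set

namespace Pool.Agent.Lib.MP_6bc78b_nt.GP.H37Z

open Pool.Agent.Lib.MP_6bc78b_nt.GP Pool.Agent.Lib.MP_6bc78b_nt.GP.G11Z
open Pool.Agent.Lib.MP_6bc78b_nt.GP.G11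

lemma exp_ne (z : ℂ) (hz : 0 < z.re) : Complex.exp z - 1 ≠ 0 := by
  intro h
  have h6 : Complex.exp z = 1 := by linear_combination h
  have h7 : ‖Complex.exp z‖ = 1 := by rw [h6]; simp
  rw [Complex.norm_exp, Real.exp_eq_one_iff] at h7
  linarith

lemma geo (z : ℂ) (hz : 0 < z.re) :
    HasSum (fun n : ℕ => Complex.exp (-(((n : ℂ) + 1) * z))) (1 / (Complex.exp z - 1)) := by
  have h1 : ‖Complex.exp (-z)‖ < 1 := by
    rw [Complex.norm_exp, Complex.neg_re, Real.exp_lt_one_iff]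
    linarith
  have h2 := (hasSum_geometric_of_norm_lt_one h1).mul_left (Complex.exp (-z))
  have h3 : Complex.exp (-z) * (1 - Complex.exp (-z))⁻¹ = 1 / (Complex.exp z - 1) := by
    have h4 : Complex.exp z ≠ 0 := Complex.exp_ne_zero z
    have h5 : Complex.exp z - 1 ≠ 0 := exp_ne z hz
    rw [Complex.exp_neg]
    have h6 : 1 - (Complex.exp z)⁻¹ = (Complex.exp z - 1) / Complex.exp z := by
      field_simp
    rw [h6, inv_div]
    field_simp
  rw [h3] at h2
  refine h2.congr_fun fun n => ?_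
  rw [← Complex.exp_nat_mul, ← Complex.exp_add]
  congr 1
  ring

lemma pt (f : ℝ → ℂ) (s : ℂ) (u : ℝ) :
    |Real.exp u| • (((Real.exp u : ℝ) : ℂ) ^ (s - 1) • f (Real.exp u)) =
      cexp (s * u) * f (Real.exp u) := by
  have h0 : ((Real.exp u : ℝ) : ℂ) ≠ 0 := by exact_mod_cast (Real.exp_pos u).ne'
  rw [abs_of_pos (Real.exp_pos u), Complex.real_smul, smul_eq_mul, ← mul_assoc]
  congr 1
  rw [Complex.cpow_def_of_ne_zero h0, ← Complex.ofReal_log (Real.exp_pos u).le, Real.log_exp,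
    Complex.ofReal_exp, ← Complex.exp_add]
  congr 1
  ring

lemma melU (f : ℝ → ℂ) (s : ℂ) : mellin f s = ∫ u : ℝ, cexp (s * u) * f (Real.exp u) := by
  unfold mellin
  rw [← MS.K.exp_image, integral_image_eq_integral_abs_deriv_smul MeasurableSet.univ
    (fun x _ => (Real.hasDerivAt_exp x).hasDerivWithinAt) (Real.exp_injective.injOn),
    setIntegral_univ]
  exact integral_congr_ae (ae_of_all _ fun u => pt f s u)

lemma mcU (f : ℝ → ℂ) (s : ℂ) (h : MellinConvergent f s) :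
    Integrable (fun u : ℝ => cexp (s * u) * f (Real.exp u)) := by
  unfold MellinConvergent at h
  rw [← MS.K.exp_image, integrableOn_image_iff_integrableOn_abs_deriv_smul MeasurableSet.univ
    (fun x _ => (Real.hasDerivAt_exp x).hasDerivWithinAt) (Real.exp_injective.injOn),
    integrableOn_univ] at h
  exact h.congr (ae_of_all _ fun u => pt f s u)

lemma realLine (σ ρ : ℝ) (hσ : 0 < σ) (hρ : 0 < ρ) :
    ∫ v : ℝ, Real.exp (σ * v - ρ * Real.exp v) = ρ ^ (-σ) * Real.Gamma σ := by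
  have h := MS.K.gammaLine_real (s := (σ : ℂ)) (ρ := ρ) (by simpa using hσ) hρ
  have h1 : (fun v : ℝ => cexp ((σ : ℂ) * v - ρ * Real.exp v)) =
      fun v : ℝ => ((Real.exp (σ * v - ρ * Real.exp v) : ℝ) : ℂ) := by
    funext v
    push_cast
    rfl
  rw [h1, integral_complex_ofReal, Complex.Gamma_ofReal, ← Complex.ofReal_log hρ.le,
    ← Complex.ofReal_mul, ← Complex.ofReal_neg, ← Complex.ofReal_exp, ← Complex.ofReal_mul] at h
  have h2 := Complex.ofReal_injective h
  rw [h2, Real.rpow_def_of_pos hρ]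
  congr 2
  ring

lemma melB (w s : ℂ) (hw : 0 < w.re) (hs : 1 < s.re) :
    ∫ u : ℝ, cexp (s * u) * (1 / (cexp (w * Real.exp u) - 1)) =
      cexp (-(s * Complex.log w)) * Complex.Gamma s * riemannZeta s := by
  have hw0 : w ≠ 0 := by
    intro h
    rw [h] at hw
    simp at hw
  have hs0 : 0 < s.re := by linarith
  set F : ℕ → ℝ → ℂ := fun n u => cexp (s * u - (((n : ℂ) + 1) * w) * Real.exp u) with hF
  have hre : ∀ n : ℕ, (((n : ℂ) + 1) * w).re = ((n : ℝ) + 1) * w.re := by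
    intro n
    have : ((n : ℂ) + 1) = (((n : ℝ) + 1 : ℝ) : ℂ) := by push_cast; rfl
    rw [this, Complex.re_ofReal_mul]
  have hpos : ∀ n : ℕ, 0 < ((n : ℝ) + 1) * w.re := fun n => by positivity
  have hint : ∀ n, Integrable (F n) := fun n =>
    MS.K.integrable_line hs0 (by rw [hre]; exact hpos n)
  have hnorm : ∀ n, ∫ u, ‖F n u‖ = (((n : ℝ) + 1) * w.re) ^ (-s.re) * Real.Gamma s.re := by
    intro n
    rw [← realLine s.re _ hs0 (hpos n)]
    refine integral_congr_ae (ae_of_all _ fun u => ?_)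
    show ‖cexp (s * u - (((n : ℂ) + 1) * w) * Real.exp u)‖ = _
    rw [MS.K.norm_cexp_line, hre]
  have hsum : Summable fun n => ∫ u, ‖F n u‖ := by
    have h1 : Summable (fun n : ℕ => ((n : ℝ) + 1) ^ (-s.re)) := by
      have h2 : Summable (fun n : ℕ => (n : ℝ) ^ (-s.re)) :=
        Real.summable_nat_rpow.2 (by linarith)
      have h3 := (summable_nat_add_iff 1).2 h2
      refine h3.congr fun n => ?_
      push_cast
      rfl
    refine (h1.mul_right (w.re ^ (-s.re) * Real.Gamma s.re)).congr fun n => ?_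
    rw [hnorm n, Real.mul_rpow (by positivity) hw.le]
    ring
  have hmain := hasSum_integral_of_summable_integral_norm hint hsum
  have hR : ∀ u : ℝ, ∑' n, F n u = cexp (s * u) * (1 / (cexp (w * Real.exp u) - 1)) := by
    intro u
    have hz : 0 < (w * Real.exp u : ℂ).re := by
      rw [mul_comm, Complex.re_ofReal_mul]
      positivity
    rw [← ((geo (w * Real.exp u) hz).mul_left (cexp (s * u))).tsum_eq]
    refine tsum_congr fun n => ?_
    show cexp (s * u - (((n : ℂ) + 1) * w) * Real.exp u) = _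
    rw [← Complex.exp_add]
    congr 1
    ring
  have hL : ∀ n : ℕ, ∫ u, F n u =
      (1 / ((n : ℂ) + 1) ^ s) * (cexp (-(s * Complex.log w)) * Complex.Gamma s) := by
    intro n
    have h1 := MS.K.gammaLine (s := s) (a := ((n : ℂ) + 1) * w) hs0 (by rw [hre]; exact hpos n)
    rw [hF]
    show ∫ u : ℝ, cexp (s * u - (((n : ℂ) + 1) * w) * Real.exp u) = _
    rw [h1]
    have hn : (0:ℝ) < (n : ℝ) + 1 := by positivity
    have h2 : ((n : ℂ) + 1) = (((n : ℝ) + 1 : ℝ) : ℂ) := by push_cast; rfl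
    have h3 : (((n : ℝ) + 1 : ℝ) : ℂ) ≠ 0 := by exact_mod_cast hn.ne'
    rw [h2, Complex.log_ofReal_mul hn hw0, Complex.cpow_def_of_ne_zero h3,
      ← Complex.ofReal_log hn.le, one_div, ← Complex.exp_neg, ← mul_assoc, ← Complex.exp_add]
    congr 2
    ring
  have h5 : (∫ u, ∑' n, F n u) =
      ∫ u : ℝ, cexp (s * u) * (1 / (cexp (w * Real.exp u) - 1)) :=
    integral_congr_ae (ae_of_all _ hR)
  rw [← h5, ← hmain.tsum_eq]
  have h6 : (∑' n, ∫ u, F n u) = ∑' n : ℕ, (1 / ((n : ℂ) + 1) ^ s) *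
      (cexp (-(s * Complex.log w)) * Complex.Gamma s) := tsum_congr hL
  rw [h6, tsum_mul_right, ← zeta_eq_tsum_one_div_nat_add_one_cpow hs]
  ring

/-! ## The regularised function -/

/-- `1/(e^{wx} - 1)`. -/
noncomputable def Fw (w : ℂ) (x : ℝ) : ℂ := 1 / (cexp (w * x) - 1)

/-- The indicator part. -/
noncomputable def Kx (x : ℝ) : ℂ := (Ioc (0:ℝ) 1).indicator (fun t : ℝ => (t : ℂ) ^ (-1 : ℂ)) x

/-- `1/(e^{wx} - 1) - 1_{x ≤ 1}/(wx)`. -/
noncomputable def gw (w : ℂ) (x : ℝ) : ℂ := Fw w x - (1 / w) • Kx x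

lemma Fw_cont (w : ℂ) (hw : 0 < w.re) : ContinuousOn (Fw w) (Ioi 0) := by
  unfold Fw
  apply ContinuousOn.div continuousOn_const
  · apply Continuous.continuousOn
    fun_prop
  · intro x hx
    apply exp_ne
    rw [mul_comm, Complex.re_ofReal_mul]
    exact mul_pos hx hw

lemma Kx_loc : LocallyIntegrableOn Kx (Ioi 0) := by
  have h : LocallyIntegrableOn (fun t : ℝ => (t : ℂ) ^ (-1 : ℂ)) (Ioi 0) := by
    apply ContinuousOn.locallyIntegrableOn _ measurableSet_Ioi
    intro x hx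
    apply ContinuousAt.continuousWithinAt
    exact (Complex.continuousAt_ofReal_cpow_const x (-1) (Or.inr (ne_of_gt hx)))
  intro x hx
  obtain ⟨u, hu, hi⟩ := h x hx
  exact ⟨u, hu, hi.indicator measurableSet_Ioc⟩

lemma gw_loc (w : ℂ) (hw : 0 < w.re) : LocallyIntegrableOn (gw w) (Ioi 0) := by
  have h1 : LocallyIntegrableOn (Fw w) (Ioi 0) :=
    (Fw_cont w hw).locallyIntegrableOn measurableSet_Ioi
  have h2 := Kx_loc
  intro x hx
  obtain ⟨u, hu, hi⟩ := h1 x hx
  obtain ⟨v, hv, hj⟩ := h2 x hx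
  refine ⟨u ∩ v, inter_mem hu hv, ?_⟩
  exact (hi.mono_set inter_subset_left).sub ((hj.mono_set inter_subset_right).smul (1 / w))

lemma gw_top (w : ℂ) (hw : 0 < w.re) (a : ℝ) :
    gw w =O[atTop] (fun x : ℝ => x ^ (-a)) := by
  have h1 : gw w =O[atTop] (fun x : ℝ => Real.exp (-w.re * x)) := by
    apply Asymptotics.IsBigO.of_bound 2
    filter_upwards [eventually_gt_atTop (1:ℝ), eventually_ge_atTop (1 / w.re)] with x hx hx2
    have hk : Kx x = 0 := by
      unfold Kx
      rw [indicator_of_notMem]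
      intro h
      exact absurd h.2 (not_le.2 hx)
    have hx1 : 1 ≤ w.re * x := by
      rw [div_le_iff₀ hw] at hx2
      linarith
    unfold gw
    rw [hk, smul_zero, sub_zero]
    unfold Fw
    have he : ‖cexp (w * x)‖ = Real.exp (w.re * x) := by
      rw [Complex.norm_exp]
      congr 1
      rw [mul_comm, Complex.re_ofReal_mul, mul_comm]
    have h2 : (2:ℝ) ≤ Real.exp (w.re * x) := by
      have := Real.add_one_le_exp (w.re * x)
      linarith
    have h3 : Real.exp (w.re * x) / 2 ≤ ‖cexp (w * x) - 1‖ := by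
      have h4 := norm_sub_norm_le (cexp (w * x)) 1
      rw [he, norm_one] at h4
      linarith
    have h5 : 0 < Real.exp (w.re * x) := Real.exp_pos _
    rw [norm_div, norm_one, Real.norm_of_nonneg (Real.exp_pos _).le, neg_mul, Real.exp_neg,
      div_le_iff₀ (by linarith)]
    calc (1:ℝ) = 2 * (Real.exp (w.re * x))⁻¹ * (Real.exp (w.re * x) / 2) := by
          field_simp
      _ ≤ _ := mul_le_mul_of_nonneg_left h3 (by positivity)
  exact h1.trans (isLittleO_exp_neg_mul_rpow_atTop hw (-a)).isBigO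

lemma ph_small (z : ℂ) (h0 : z ≠ 0) (h : ‖z‖ ≤ 1 / 2) : ‖1 / (cexp z - 1) - 1 / z‖ ≤ 2 := by
  have h1 : ‖cexp z - 1 - z‖ ≤ ‖z‖ ^ 2 := Complex.norm_exp_sub_one_sub_id_le (by linarith)
  have hz : 0 < ‖z‖ := norm_pos_iff.2 h0
  have h2 : ‖z‖ / 2 ≤ ‖cexp z - 1‖ := by
    have h3 : ‖z‖ ≤ ‖cexp z - 1‖ + ‖cexp z - 1 - z‖ := by
      have h4 : z = (cexp z - 1) - (cexp z - 1 - z) := by ring
      calc ‖z‖ = ‖(cexp z - 1) - (cexp z - 1 - z)‖ := by rw [← h4]
        _ ≤ _ := norm_sub_le _ _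
    nlinarith
  have h5 : cexp z - 1 ≠ 0 := by
    intro h6
    rw [h6, norm_zero] at h2
    linarith
  have h6 : 1 / (cexp z - 1) - 1 / z = -(cexp z - 1 - z) / ((cexp z - 1) * z) := by
    field_simp
    ring
  rw [h6, norm_div, norm_neg, norm_mul, div_le_iff₀ (by positivity)]
  calc ‖cexp z - 1 - z‖ ≤ ‖z‖ ^ 2 := h1
    _ = 2 * (‖z‖ / 2 * ‖z‖) := by ring
    _ ≤ 2 * (‖cexp z - 1‖ * ‖z‖) := by gcongr

lemma gw_bot (w : ℂ) (hw0 : w ≠ 0) :
    gw w =O[𝓝[>] 0] (fun x : ℝ => x ^ (-(0:ℝ))) := by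
  apply Asymptotics.IsBigO.of_bound 2
  have hwn : 0 < ‖w‖ := norm_pos_iff.2 hw0
  have h1 : ∀ᶠ x : ℝ in 𝓝[>] 0, x ∈ Ioo (0:ℝ) (min 1 (1 / (2 * ‖w‖))) :=
    Ioo_mem_nhdsGT (by positivity)
  filter_upwards [h1] with x hx
  have hx0 : 0 < x := hx.1
  have hx1 : x ≤ 1 := (hx.2.trans_le (min_le_left _ _)).le
  have hx2 : x ≤ 1 / (2 * ‖w‖) := (hx.2.trans_le (min_le_right _ _)).le
  have hxc : (x : ℂ) ≠ 0 := by exact_mod_cast hx0.ne'
  have hk : Kx x = 1 / (x : ℂ) := by
    unfold Kx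
    rw [indicator_of_mem (show x ∈ Ioc (0:ℝ) 1 from ⟨hx0, hx1⟩), Complex.cpow_neg_one, one_div]
  have hn : ‖w * x‖ ≤ 1 / 2 := by
    rw [norm_mul, Complex.norm_real, Real.norm_of_nonneg hx0.le]
    rw [le_div_iff₀ (by positivity)] at hx2
    linarith
  have h2 := ph_small (w * x) (mul_ne_zero hw0 hxc) hn
  have h3 : gw w x = 1 / (cexp (w * x) - 1) - 1 / (w * x) := by
    unfold gw Fw
    rw [hk, smul_eq_mul]
    congr 1
    field_simp
  rw [h3]
  simpa using h2

lemma gw_mc (w s : ℂ) (hw : 0 < w.re) (hs : 0 < s.re) : MellinConvergent (gw w) s := by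
  have hw0 : w ≠ 0 := by
    intro h
    rw [h] at hw
    simp at hw
  exact mellinConvergent_of_isBigO_rpow (a := s.re + 1) (b := 0) (gw_loc w hw)
    (gw_top w hw _) (by linarith) (gw_bot w hw0) hs

lemma gw_diff (w s : ℂ) (hw : 0 < w.re) (hs : 0 < s.re) : DifferentiableAt ℂ (mellin (gw w)) s := by
  have hw0 : w ≠ 0 := by
    intro h
    rw [h] at hw
    simp at hw
  exact mellin_differentiableAt_of_isBigO_rpow (a := s.re + 1) (b := 0) (gw_loc w hw)
    (gw_top w hw _) (by linarith) (gw_bot w hw0) hs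

/-- The transform for `Re s > 1`. -/
lemma mel_right (w s : ℂ) (hw : 0 < w.re) (hs : 1 < s.re) :
    mellin (gw w) s = cexp (-(s * Complex.log w)) * Complex.Gamma s * riemannZeta s -
      1 / w * (1 / (s - 1)) := by
  have h1 := hasMellin_cpow_Ioc (-1) (s := s) (by simp; linarith)
  have h2 : MellinConvergent Kx s := h1.1
  have h3 : mellin Kx s = 1 / (s - 1) := by
    have := h1.2
    rw [← sub_eq_add_neg] at this
    exact this
  have hg := gw_mc w s hw (by linarith)
  have h4 : MellinConvergent (fun t => (1 / w) • Kx t) s := h2.const_smul (1 / w)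
  have h5 := hasMellin_add hg h4
  have h6 : (fun t => gw w t + (1 / w) • Kx t) = Fw w := by
    funext t
    unfold gw
    ring
  rw [h6] at h5
  have h7 := h5.2
  rw [mellin_const_smul, h3, melU (Fw w) s] at h7
  have h8 := melB w s hw hs
  have h9 : (∫ u : ℝ, cexp (s * u) * Fw w (Real.exp u)) =
      cexp (-(s * Complex.log w)) * Complex.Gamma s * riemannZeta s := h8
  rw [h9, smul_eq_mul] at h7
  rw [h7]
  ring

/-- The domain of the identity theorem. -/
def UU : Set ℂ := {s : ℂ | 0 < s.re} ∩ ({s : ℂ | s.im ≠ 0} ∪ {s : ℂ | s.re < 1})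

lemma UU_open : IsOpen UU := by
  apply IsOpen.inter (isOpen_lt continuous_const Complex.continuous_re)
  apply IsOpen.union
  · exact isOpen_ne_fun Complex.continuous_im continuous_const
  · exact isOpen_lt Complex.continuous_re continuous_const

lemma UU_conn : IsPreconnected UU := by
  have h : StarConvex ℝ (1 / 2 : ℂ) UU := by
    intro s hs a b ha hb hab
    obtain ⟨h1, h2⟩ := hs
    have hre : (a • (1 / 2 : ℂ) + b • s).re = a / 2 + b * s.re := by
      simp [Complex.add_re]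
      ring
    have him : (a • (1 / 2 : ℂ) + b • s).im = b * s.im := by
      simp [Complex.add_im]
    have h1' : 0 < s.re := h1
    rcases hb.eq_or_lt with hb0 | hb0
    · have ha1 : a = 1 := by linarith
      refine ⟨?_, Or.inr ?_⟩
      · show (0:ℝ) < (a • (1 / 2 : ℂ) + b • s).re
        rw [hre, ← hb0, ha1]
        norm_num
      · show (a • (1 / 2 : ℂ) + b • s).re < 1
        rw [hre, ← hb0, ha1]
        norm_num
    · refine ⟨?_, ?_⟩
      · show (0:ℝ) < (a • (1 / 2 : ℂ) + b • s).re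
        rw [hre]
        have := mul_pos hb0 h1'
        linarith
      · rcases h2 with h2 | h2
        · left
          show (a • (1 / 2 : ℂ) + b • s).im ≠ 0
          rw [him]
          exact mul_ne_zero hb0.ne' h2
        · right
          show (a • (1 / 2 : ℂ) + b • s).re < 1
          rw [hre]
          have h2' : s.re < 1 := h2
          nlinarith
  have hm : (1 / 2 : ℂ) ∈ UU := by
    refine ⟨?_, Or.inr ?_⟩
    · show (0:ℝ) < (1 / 2 : ℂ).re
      norm_num
    · show (1 / 2 : ℂ).re < 1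
      norm_num
  exact (h.isPathConnected hm).isConnected.isPreconnected

lemma ne_one_of_UU (s : ℂ) (hs : s ∈ UU) : s ≠ 1 := by
  rintro rfl
  rcases hs.2 with h | h
  · exact h (by simp)
  · have : (1:ℂ).re < 1 := h
    simp at this

lemma mel_all (w s : ℂ) (hw : 0 < w.re) (hs : s ∈ UU) :
    mellin (gw w) s = cexp (-(s * Complex.log w)) * Complex.Gamma s * riemannZeta s -
      1 / w * (1 / (s - 1)) := by
  have hf : AnalyticOnNhd ℂ (mellin (gw w)) UU := by
    apply DifferentiableOn.analyticOnNhd _ UU_open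
    intro z hz
    exact (gw_diff w z hw hz.1).differentiableWithinAt
  have hg : AnalyticOnNhd ℂ (fun s : ℂ => cexp (-(s * Complex.log w)) * Complex.Gamma s *
      riemannZeta s - 1 / w * (1 / (s - 1))) UU := by
    apply DifferentiableOn.analyticOnNhd _ UU_open
    intro z hz
    have h1 := ne_one_of_UU z hz
    have hz0 : 0 < z.re := hz.1
    have h2 : DifferentiableAt ℂ Complex.Gamma z := by
      apply Complex.differentiableAt_Gamma
      intro m hm
      rw [hm] at hz0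
      simp at hz0
      have : (0:ℝ) ≤ m := Nat.cast_nonneg m
      linarith
    have h3 := differentiableAt_riemannZeta h1
    have h4 : DifferentiableAt ℂ (fun s : ℂ => cexp (-(s * Complex.log w))) z := by fun_prop
    have h5 : DifferentiableAt ℂ (fun s : ℂ => 1 / w * (1 / (s - 1))) z := by
      apply DifferentiableAt.const_mul
      apply DifferentiableAt.div (differentiableAt_const _) (by fun_prop)
      exact sub_ne_zero.2 h1
    exact (((h4.mul h2).mul h3).sub h5).differentiableWithinAt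
  have hz0 : (2 + I : ℂ) ∈ UU := by
    refine ⟨?_, Or.inl ?_⟩
    · show (0:ℝ) < (2 + I : ℂ).re
      simp
    · show (2 + I : ℂ).im ≠ 0
      simp
  have hev : mellin (gw w) =ᶠ[𝓝 (2 + I : ℂ)] fun s : ℂ => cexp (-(s * Complex.log w)) *
      Complex.Gamma s * riemannZeta s - 1 / w * (1 / (s - 1)) := by
    have ho : IsOpen {s : ℂ | 1 < s.re} := isOpen_lt continuous_const Complex.continuous_re
    have hm : (2 + I : ℂ) ∈ {s : ℂ | 1 < s.re} := by
      show (1:ℝ) < (2 + I : ℂ).re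
      simp
    filter_upwards [ho.mem_nhds hm] with z hz
    exact mel_right w z hw hz
  exact hf.eqOn_of_preconnected_of_eventuallyEq hg UU_conn hz0 hev hs

/-- The tail part. -/
lemma tail (s : ℂ) (hs1 : s.re < 1) :
    HasMellin (fun x : ℝ => (Ioi (1:ℝ)).indicator (fun t : ℝ => (t : ℂ) ^ (-1 : ℂ)) x) s
      (-(1 / (s - 1))) := by
  have hre : (s - 2).re < -1 := by
    simp
    linarith
  have h1 := integrableOn_Ioi_cpow_of_lt hre (c := 1) one_pos
  have h2 := integral_Ioi_cpow_of_lt hre (c := 1) one_pos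
  have hs : s - 1 ≠ 0 := by
    intro h
    have : s = 1 := by linear_combination h
    rw [this] at hs1
    simp at hs1
  have key : ∀ t ∈ Ioi (0:ℝ), (t : ℂ) ^ (s - 1) • (Ioi (1:ℝ)).indicator
      (fun t : ℝ => (t : ℂ) ^ (-1 : ℂ)) t =
      (Ioi (1:ℝ)).indicator (fun t : ℝ => (t : ℂ) ^ (s - 2)) t := by
    intro t ht
    by_cases h : t ∈ Ioi (1:ℝ)
    · rw [indicator_of_mem h, indicator_of_mem h, smul_eq_mul]
      have ht0 : (t : ℂ) ≠ 0 := by exact_mod_cast (ne_of_gt ht)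
      rw [← Complex.cpow_add _ _ ht0]
      congr 1
      ring
    · rw [indicator_of_notMem h, indicator_of_notMem h, smul_zero]
  refine ⟨?_, ?_⟩
  · unfold MellinConvergent
    rw [integrableOn_congr_fun key measurableSet_Ioi]
    have h3 : Integrable ((Ioi (1:ℝ)).indicator (fun t : ℝ => (t : ℂ) ^ (s - 2))) :=
      (integrable_indicator_iff measurableSet_Ioi).2 h1
    exact h3.integrableOn
  · unfold mellin
    rw [setIntegral_congr_fun measurableSet_Ioi key, setIntegral_indicator measurableSet_Ioi]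
    have h4 : Ioi (0:ℝ) ∩ Ioi 1 = Ioi 1 :=
      inter_eq_right.2 (Ioi_subset_Ioi zero_le_one)
    rw [h4, h2]
    have h5 : s - 2 + 1 = s - 1 := by ring
    rw [h5, Complex.ofReal_one, Complex.one_cpow, neg_div]

/-- The transform in the strip. -/
theorem strip (w s : ℂ) (hw : 0 < w.re) (hs : 0 < s.re) (hs1 : s.re < 1) :
    HasMellin (fun x : ℝ => 1 / (cexp (w * x) - 1) - 1 / (w * x)) s
      (cexp (-(s * Complex.log w)) * Complex.Gamma s * riemannZeta s) := by
  have h1 := gw_mc w s hw hs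
  have h2 := mel_all w s hw ⟨hs, Or.inr hs1⟩
  obtain ⟨h3, h4⟩ := tail s hs1
  have h5 : MellinConvergent (fun x : ℝ => (1 / w) • (Ioi (1:ℝ)).indicator
    (fun t : ℝ => (t : ℂ) ^ (-1 : ℂ)) x) s := h3.const_smul (1 / w)
  obtain ⟨h6, h7⟩ := hasMellin_sub h1 h5
  have hw0 : w ≠ 0 := by
    intro h
    rw [h] at hw
    simp at hw
  have key : ∀ x ∈ Ioi (0:ℝ), gw w x - (1 / w) • (Ioi (1:ℝ)).indicator
      (fun t : ℝ => (t : ℂ) ^ (-1 : ℂ)) x = 1 / (cexp (w * x) - 1) - 1 / (w * x) := by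
    intro x hx
    have hxc : (x : ℂ) ≠ 0 := by exact_mod_cast (ne_of_gt hx)
    unfold gw Fw Kx
    by_cases h : x ≤ 1
    · rw [indicator_of_mem (show x ∈ Ioc (0:ℝ) 1 from ⟨hx, h⟩),
        indicator_of_notMem (show x ∉ Ioi (1:ℝ) from not_lt.2 h), Complex.cpow_neg_one,
        smul_zero, sub_zero, smul_eq_mul]
      congr 1
      field_simp
    · rw [indicator_of_notMem (show x ∉ Ioc (0:ℝ) 1 from fun h' => h h'.2),
        indicator_of_mem (show x ∈ Ioi (1:ℝ) from not_le.1 h), Complex.cpow_neg_one,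
        smul_zero, sub_zero, smul_eq_mul]
      congr 1
      field_simp
  have key2 : ∀ x ∈ Ioi (0:ℝ), (x : ℂ) ^ (s - 1) • (gw w x - (1 / w) • (Ioi (1:ℝ)).indicator
      (fun t : ℝ => (t : ℂ) ^ (-1 : ℂ)) x) =
      (x : ℂ) ^ (s - 1) • (1 / (cexp (w * x) - 1) - 1 / (w * x)) := by
    intro x hx
    rw [key x hx]
  refine ⟨?_, ?_⟩
  · unfold MellinConvergent at h6 ⊢
    rw [integrableOn_congr_fun key2 measurableSet_Ioi] at h6
    exact h6
  · have h8 : mellin (fun x : ℝ => 1 / (cexp (w * x) - 1) - 1 / (w * x)) s =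
        mellin (fun x : ℝ => gw w x - (1 / w) • (Ioi (1:ℝ)).indicator
          (fun t : ℝ => (t : ℂ) ^ (-1 : ℂ)) x) s := by
      unfold mellin
      exact (setIntegral_congr_fun measurableSet_Ioi key2).symm
    rw [h8, h7, mellin_const_smul, h4, h2, smul_eq_mul]
    ring

lemma zmr_eq (m : ℕ) (u δ : ℝ) :
    (m : ℂ) * zr u δ = H69.zn m 0 δ * ((Real.exp u : ℝ) : ℂ) := by
  unfold H69.zn zr
  have h1 : Complex.exp (u - δ * I) = Complex.exp (((0:ℝ):ℂ) - δ * I) *
      ((Real.exp u : ℝ) : ℂ) := by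
    rw [Complex.ofReal_exp, ← Complex.exp_add]
    congr 1
    push_cast
    ring
  rw [h1]
  ring

/-- Integrability of one term against `e^{σu}`, `0 < σ < 1`. -/
lemma one_int (m : ℕ) (hm : m ≠ 0) (δ σ : ℝ) (hδ : 0 < δ) (hδ2 : δ ≤ 1 / 2) (h0 : 0 < σ)
    (h1 : σ < 1) :
    Integrable (fun u : ℝ => ((Real.exp (σ * u) : ℝ) : ℂ) * ph1 (m * zr u δ)) := by
  have hwre : 0 < (H69.zn m 0 δ).re := H69.zn_re m hm 0 δ hδ hδ2
  obtain ⟨h3, -⟩ := strip (H69.zn m 0 δ) (σ : ℂ) hwre (by simpa using h0) (by simpa using h1)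
  refine (mcU _ _ h3).congr (ae_of_all _ fun u => ?_)
  show cexp ((σ : ℂ) * u) * (1 / (cexp (H69.zn m 0 δ * ((Real.exp u : ℝ) : ℂ)) - 1) -
    1 / (H69.zn m 0 δ * ((Real.exp u : ℝ) : ℂ))) =
    ((Real.exp (σ * u) : ℝ) : ℂ) * ph1 (m * zr u δ)
  rw [zmr_eq, Complex.ofReal_exp]
  push_cast
  rfl

/-- The transform of one term. -/
lemma one_tr (m : ℕ) (hm : m ≠ 0) (δ t : ℝ) (hδ : 0 < δ) (hδ2 : δ ≤ 1 / 2) :
    ∫ u : ℝ, ph1 (m * zr u δ) * ((Real.exp (u / 2) : ℝ) : ℂ) * Complex.exp (u * t * I) =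
      om0 δ (1 / 2 + t * I) * riemannZeta (1 / 2 + t * I) * (m : ℂ) ^ (-(1 / 2 + t * I : ℂ)) := by
  set w : ℂ := H69.zn m 0 δ with hw
  have hwre : 0 < w.re := H69.zn_re m hm 0 δ hδ hδ2
  set s : ℂ := 1 / 2 + t * I with hs
  have hsre : s.re = 1 / 2 := by rw [hs]; simp
  obtain ⟨h1, h2⟩ := strip w s hwre (by rw [hsre]; norm_num) (by rw [hsre]; norm_num)
  rw [melU] at h2
  have h5 : (∫ u : ℝ, ph1 (m * zr u δ) * ((Real.exp (u / 2) : ℝ) : ℂ) *
      Complex.exp (u * t * I)) =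
      ∫ u : ℝ, cexp (s * u) * (1 / (cexp (w * ((Real.exp u : ℝ) : ℂ)) - 1) -
        1 / (w * ((Real.exp u : ℝ) : ℂ))) := by
    refine integral_congr_ae (ae_of_all _ fun u => ?_)
    show ph1 (m * zr u δ) * ((Real.exp (u / 2) : ℝ) : ℂ) * Complex.exp (u * t * I) =
      cexp (s * u) * (1 / (cexp (w * ((Real.exp u : ℝ) : ℂ)) - 1) -
        1 / (w * ((Real.exp u : ℝ) : ℂ)))
    have h6 : cexp (s * u) = ((Real.exp (u / 2) : ℝ) : ℂ) * Complex.exp (u * t * I) := by
      rw [Complex.ofReal_exp, ← Complex.exp_add, hs]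
      congr 1
      push_cast
      ring
    rw [h6, zmr_eq]
    show (1 / (cexp (w * ((Real.exp u : ℝ) : ℂ)) - 1) -
      1 / (w * ((Real.exp u : ℝ) : ℂ))) * _ * _ = _
    ring
  rw [h5, h2]
  have h7 := H69.zn_cpow m hm 0 δ hδ hδ2 s
  have hw0 : w ≠ 0 := by
    intro h
    rw [h] at hwre
    simp at hwre
  have h8 : cexp (-(s * Complex.log w)) = w ^ (-s) := by
    rw [Complex.cpow_def_of_ne_zero hw0]
    congr 1
    ring
  rw [h8]
  have h9 : w ^ (-s) * Complex.Gamma s * riemannZeta s =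
      (Complex.Gamma s * H69.zn m 0 δ ^ (-s)) * riemannZeta s := by
    rw [hw]
    ring
  rw [h9, h7]
  simp
  ring

lemma one_cont (m : ℕ) (hm : m ≠ 0) (δ : ℝ) (hδ : 0 < δ) (hδ2 : δ ≤ 1 / 2) :
    Continuous (fun u : ℝ => ph1 (m * zr u δ)) := by
  have hwre : 0 < (H69.zn m 0 δ).re := H69.zn_re m hm 0 δ hδ hδ2
  have hre : ∀ u : ℝ, 0 < ((m : ℂ) * zr u δ).re := by
    intro u
    rw [zmr_eq, mul_comm, Complex.re_ofReal_mul]
    exact mul_pos (Real.exp_pos u) hwre
  have hc : Continuous (fun u : ℝ => (m : ℂ) * zr u δ) := by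
    unfold zr
    fun_prop
  unfold ph1
  apply Continuous.sub
  · apply Continuous.div continuous_const
    · exact (Complex.continuous_exp.comp hc).sub continuous_const
    · intro u
      exact exp_ne _ (hre u)
  · apply Continuous.div continuous_const hc
    intro u h
    have := hre u
    rw [h] at this
    simp at this

lemma wt_le (u : ℝ) : (1 + u ^ 4) * Real.exp (u / 2) ≤
    (1 + 6144) * (Real.exp (1 / 4 * u) + Real.exp (3 / 4 * u)) := by
  have h1 : u ^ 4 ≤ 6144 * (Real.exp (u / 4) + Real.exp (-(u / 4))) := by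
    have h2 := Real.pow_div_factorial_le_exp (|u| / 4) (by positivity) 4
    have h3 : Real.exp (|u| / 4) ≤ Real.exp (u / 4) + Real.exp (-(u / 4)) := by
      rcases abs_cases u with ⟨h, -⟩ | ⟨h, -⟩
      · rw [h]
        linarith [Real.exp_pos (-(u / 4))]
      · rw [h]
        have : -u / 4 = -(u / 4) := by ring
        rw [this]
        linarith [Real.exp_pos (u / 4)]
    have h4 : (|u| / 4) ^ 4 / (Nat.factorial 4 : ℝ) = u ^ 4 / 6144 := by
      rw [div_pow, Nat.factorial]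
      have : |u| ^ 4 = u ^ 4 := by
        rw [← abs_pow]
        exact abs_of_nonneg (by positivity)
      rw [this]
      norm_num [Nat.factorial]
      ring
    rw [h4] at h2
    linarith
  have h5 : (1:ℝ) ≤ Real.exp (u / 4) + Real.exp (-(u / 4)) := by
    have := Real.add_one_le_exp (u / 4)
    have := Real.add_one_le_exp (-(u / 4))
    linarith
  have h6 : Real.exp (1 / 4 * u) = Real.exp (-(u / 4)) * Real.exp (u / 2) := by
    rw [← Real.exp_add]
    congr 1
    ring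
  have h7 : Real.exp (3 / 4 * u) = Real.exp (u / 4) * Real.exp (u / 2) := by
    rw [← Real.exp_add]
    congr 1
    ring
  rw [h6, h7]
  have h8 : 1 + u ^ 4 ≤ (1 + 6144) * (Real.exp (u / 4) + Real.exp (-(u / 4))) := by linarith
  calc (1 + u ^ 4) * Real.exp (u / 2) ≤
      ((1 + 6144) * (Real.exp (u / 4) + Real.exp (-(u / 4)))) * Real.exp (u / 2) :=
        mul_le_mul_of_nonneg_right h8 (Real.exp_pos _).le
    _ = _ := by ring

lemma one_int4 (m : ℕ) (hm : m ≠ 0) (δ : ℝ) (hδ : 0 < δ) (hδ2 : δ ≤ 1 / 2) :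
    Integrable (fun u : ℝ => ((1 + u ^ 4 : ℝ) : ℂ) * (ph1 (m * zr u δ) *
      ((Real.exp (u / 2) : ℝ) : ℂ))) := by
  have h1 := one_int m hm δ (1 / 4) hδ hδ2 (by norm_num) (by norm_num)
  have h2 := one_int m hm δ (3 / 4) hδ hδ2 (by norm_num) (by norm_num)
  have h3 := (h1.norm.add h2.norm).const_mul (1 + 6144)
  have hc := one_cont m hm δ hδ hδ2
  refine h3.mono' ?_ (ae_of_all _ fun u => ?_)
  · apply Continuous.aestronglyMeasurable
    have h4 : Continuous (fun u : ℝ => ((1 + u ^ 4 : ℝ) : ℂ)) := by fun_prop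
    have h5 : Continuous (fun u : ℝ => ((Real.exp (u / 2) : ℝ) : ℂ)) := by fun_prop
    exact h4.mul (hc.mul h5)
  · show ‖((1 + u ^ 4 : ℝ) : ℂ) * (ph1 (m * zr u δ) * ((Real.exp (u / 2) : ℝ) : ℂ))‖ ≤
      (1 + 6144) * (‖((Real.exp (1 / 4 * u) : ℝ) : ℂ) * ph1 (m * zr u δ)‖ +
        ‖((Real.exp (3 / 4 * u) : ℝ) : ℂ) * ph1 (m * zr u δ)‖)
    rw [norm_mul, norm_mul, norm_mul, norm_mul, Complex.norm_real, Complex.norm_real,
      Complex.norm_real, Complex.norm_real, Real.norm_of_nonneg (by positivity),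
      Real.norm_of_nonneg (by positivity), Real.norm_of_nonneg (by positivity),
      Real.norm_of_nonneg (by positivity)]
    have h6 := mul_le_mul_of_nonneg_right (wt_le u) (norm_nonneg (ph1 (m * zr u δ)))
    calc (1 + u ^ 4) * (‖ph1 (m * zr u δ)‖ * Real.exp (u / 2)) =
        (1 + u ^ 4) * Real.exp (u / 2) * ‖ph1 (m * zr u δ)‖ := by ring
      _ ≤ _ := h6
      _ = _ := by ring

/-- ZMEL. -/
theorem zmel : ZMELStatement := by
  intro S a δ hS hδ hδ2
  have hm : ∀ m ∈ S, m ≠ 0 := fun m hmS => by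
    have := hS m hmS
    omega
  refine ⟨?_, ?_, ?_⟩
  · unfold Ph
    exact continuous_finsetSum S fun m hmS =>
      continuous_const.mul (one_cont m (hm m hmS) δ hδ hδ2)
  · have h1 : Integrable (fun u : ℝ => ∑ m ∈ S, a m * (((1 + u ^ 4 : ℝ) : ℂ) *
        (ph1 (m * zr u δ) * ((Real.exp (u / 2) : ℝ) : ℂ)))) :=
      integrable_finsetSum S fun m hmS => (one_int4 m (hm m hmS) δ hδ hδ2).const_mul (a m)
    refine h1.congr (ae_of_all _ fun u => ?_)
    show ∑ m ∈ S, a m * (((1 + u ^ 4 : ℝ) : ℂ) *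
        (ph1 (m * zr u δ) * ((Real.exp (u / 2) : ℝ) : ℂ))) =
      ((1 + u ^ 4 : ℝ) : ℂ) * (Ph S a (zr u δ) * ((Real.exp (u / 2) : ℝ) : ℂ))
    unfold Ph
    rw [Finset.sum_mul, Finset.mul_sum]
    exact Finset.sum_congr rfl fun m _ => by ring
  · intro t
    have hE : ∀ u : ℝ, ‖Complex.exp (u * t * I)‖ = 1 := by
      intro u
      rw [Complex.norm_exp]
      simp
    have hint : ∀ m ∈ S, Integrable (fun u : ℝ => a m * (ph1 (m * zr u δ) *
        ((Real.exp (u / 2) : ℝ) : ℂ) * Complex.exp (u * t * I))) := by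
      intro m hmS
      have h1 := one_int m (hm m hmS) δ (1 / 2) hδ hδ2 (by norm_num) (by norm_num)
      apply Integrable.const_mul
      have hcE : Continuous (fun u : ℝ => Complex.exp (u * t * I)) := by fun_prop
      have h2 := h1.bdd_mul hcE.aestronglyMeasurable (ae_of_all _ fun u => (hE u).le)
      refine h2.congr (ae_of_all _ fun u => ?_)
      show Complex.exp (u * t * I) * (((Real.exp (1 / 2 * u) : ℝ) : ℂ) * ph1 (m * zr u δ)) =
        ph1 (m * zr u δ) * ((Real.exp (u / 2) : ℝ) : ℂ) * Complex.exp (u * t * I)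
      have : (1 / 2 * u : ℝ) = u / 2 := by ring
      rw [this]
      ring
    have h3 : (∫ u : ℝ, Ph S a (zr u δ) * ((Real.exp (u / 2) : ℝ) : ℂ) *
        Complex.exp (u * t * I)) = ∫ u : ℝ, ∑ m ∈ S, a m * (ph1 (m * zr u δ) *
        ((Real.exp (u / 2) : ℝ) : ℂ) * Complex.exp (u * t * I)) := by
      refine integral_congr_ae (ae_of_all _ fun u => ?_)
      show Ph S a (zr u δ) * ((Real.exp (u / 2) : ℝ) : ℂ) * Complex.exp (u * t * I) = _
      unfold Ph
      rw [Finset.sum_mul, Finset.sum_mul]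
      exact Finset.sum_congr rfl fun m _ => by ring
    rw [h3, integral_finsetSum S hint]
    unfold cA
    rw [Finset.mul_sum]
    refine Finset.sum_congr rfl fun m hmS => ?_
    rw [integral_const_mul, one_tr m (hm m hmS) δ t hδ hδ2]
    ring

end Pool.Agent.Lib.MP_6bc78b_nt.GP.H37Z
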